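import Pool.Agent.Lib.MP_98022b_h71.Base
import Pool.Agent.Lib.MP_98022b_h12.Ext

/-!
# Conjugating two sections of a homomorphism onto the infinite cyclic group inside the class
-/

set_option autoImplicit false

namespace Pool.Agent.FJ

open SemidirectProduct

variable {P : ∀ (G : Type) [Group G], Prop}

/-- The shift action on functions. -/
def shf (A L : Type) [AddCommGroup A] [Group L] : Multiplicative A →* MulAut (A → L) where
  toFun a :=
    { toFun := fun f k => f (k - Multiplicative.toAdd a)
      invFun := fun f k => f (k + Multiplicative.toAdd a)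
      left_inv := fun f => by funext k; simp
      right_inv := fun f => by funext k; simp
      map_mul' := fun f g => rfl }
  map_one' := by ext f k; simp
  map_mul' a b := by
    ext f k
    simp only [toAdd_mul, MulEquiv.coe_mk, Equiv.coe_fn_mk, MulAut.mul_apply]
    congr 1
    abel

theorem shf_apply {A L : Type} [AddCommGroup A] [Group L] (a : Multiplicative A) (f : A → L)
    (k : A) : shf A L a f k = f (k - Multiplicative.toAdd a) := rfl

/-- The unrestricted wreath product. -/
abbrev UW (A L : Type) [AddCommGroup A] [Group L] : Type := (A → L) ⋊[shf A L] (Multiplicative A)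

theorem conj_inl {A L : Type} [AddCommGroup A] [Group L] (w : UW A L) (h : A → L) :
    w * inl h * w⁻¹ =
      inl (fun k => w.left k * h (k - Multiplicative.toAdd w.right) * (w.left k)⁻¹) := by
  have h1 : w * inl h * w⁻¹ = inl w.left * (inr w.right * inl h * (inr w.right)⁻¹) *
      (inl w.left)⁻¹ := by
    conv_lhs => rw [← inl_left_mul_inr_right w]
    rw [mul_inv_rev]
    simp only [mul_assoc]
  rw [h1, ← map_inv, ← map_inv, ← inl_aut, ← map_mul, ← map_mul]
  congr 1

section

variable {L : Type} [Group L] (lam : L →* Multiplicative ℤ) (x x' : L)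

/-- Sequences with constant value of `lam`, equal to a power of `x` far to the left and to the same
power of `x'` far to the right. -/
def InY (f : ℤ → L) : Prop :=
  ∃ m : ℤ, (∀ k, lam (f k) = Multiplicative.ofAdd m) ∧
    ∃ K : ℕ, (∀ k : ℤ, k < -K → f k = x ^ m) ∧ ∀ k : ℤ, (K : ℤ) < k → f k = x' ^ m

/-- The shift extension of the group of such sequences. -/
def YY : Subgroup (UW ℤ L) where
  carrier := {w | InY lam x x' w.left}
  one_mem' := ⟨0, fun k => by simp, 0, fun k _ => by simp, fun k _ => by simp⟩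
  mul_mem' := by
    rintro v w ⟨m, h1, K, h2, h3⟩ ⟨m', h1', K', h2', h3'⟩
    refine ⟨m + m', fun k => ?_, K + K' + (Multiplicative.toAdd v.right).natAbs,
      fun k hk => ?_, fun k hk => ?_⟩
    · simp only [mul_left, Pi.mul_apply, shf_apply, map_mul, h1, h1', ofAdd_add]
    · simp only [mul_left, Pi.mul_apply, shf_apply, zpow_add]
      rw [h2 k (by omega), h2' _ (by omega)]
    · simp only [mul_left, Pi.mul_apply, shf_apply, zpow_add]
      rw [h3 k (by omega), h3' _ (by omega)]
  inv_mem' := by
    rintro v ⟨m, h1, K, h2, h3⟩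
    have hv : ∀ k, (v⁻¹).left k = (v.left (k + Multiplicative.toAdd v.right))⁻¹ := by
      intro k
      rw [inv_left, shf_apply, toAdd_inv, sub_neg_eq_add]
      rfl
    refine ⟨-m, fun k => ?_, K + (Multiplicative.toAdd v.right).natAbs,
      fun k hk => ?_, fun k hk => ?_⟩
    · rw [hv, map_inv, h1, ofAdd_neg]
    · rw [hv, h2 _ (by omega), zpow_neg]
    · rw [hv, h3 _ (by omega), zpow_neg]

/-- The value at `0`. -/
def lamY : YY lam x x' →* Multiplicative ℤ where
  toFun w := lam (w.1.left 0)
  map_one' := by simp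
  map_mul' := by
    rintro ⟨v, hv⟩ ⟨w, m', h1', hw⟩
    simp only [Subgroup.coe_mul, mul_left, Pi.mul_apply, shf_apply, map_mul, h1']

variable {lam x x'}

/-- The embedding of `L` at the coordinate `0`. -/
def iotaY (hx : lam x = tt) (hx' : lam x' = tt) : L →* YY lam x x' where
  toFun g := ⟨⟨fun k => if k < 0 then x ^ (Multiplicative.toAdd (lam g)) else
      if k = 0 then g else x' ^ (Multiplicative.toAdd (lam g)), 1⟩, by
    refine ⟨Multiplicative.toAdd (lam g), fun k => ?_, 0, fun k hk => ?_, fun k hk => ?_⟩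
    · have hz : ∀ m : ℤ, tt ^ m = Multiplicative.ofAdd m := fun m => by
        apply Multiplicative.toAdd.injective
        simp [tt]
      by_cases h1 : k < 0
      · simp only [h1, if_true, map_zpow, hx]
        exact hz _
      · by_cases h2 : k = 0
        · simp [h2]
        · simp only [h1, h2, if_false, map_zpow, hx']
          exact hz _
    · simp only [show k < 0 by simpa using hk, if_true]
    · have h1 : ¬ k < 0 := by simp at hk; omega
      have h2 : k ≠ 0 := by simp at hk; omega
      simp only [h1, h2, if_false]⟩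
  map_one' := by
    apply Subtype.ext
    refine SemidirectProduct.ext ?_ rfl
    funext k
    simp
  map_mul' g h := by
    apply Subtype.ext
    refine SemidirectProduct.ext ?_ (by simp)
    funext k
    simp only [Subgroup.coe_mul, mul_left, Pi.mul_apply, map_one, MulAut.one_apply, map_mul,
      toAdd_mul]
    split_ifs
    · rw [zpow_add]
    · rfl
    · rw [zpow_add]

theorem iotaY_injective (hx : lam x = tt) (hx' : lam x' = tt) :
    Function.Injective (iotaY hx hx') := by
  intro g h hgh
  have := congrArg (fun w : YY lam x x' => w.1.left 0) hgh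
  simpa [iotaY] using this

theorem lamY_iotaY (hx : lam x = tt) (hx' : lam x' = tt) (g : L) :
    lamY lam x x' (iotaY hx hx' g) = lam g := by
  simp [lamY, iotaY]

theorem toAdd_tt : Multiplicative.toAdd tt = 1 := rfl

/-- The two elements become conjugate. -/
theorem iotaY_conj (hx : lam x = tt) (hx' : lam x' = tt) :
    ∃ s : YY lam x x', iotaY hx hx' x * s = s * iotaY hx hx' x' := by
  refine ⟨⟨⟨1, tt⟩, ?_⟩, ?_⟩
  · exact (YY lam x x').one_mem
  · apply Subtype.ext
    refine SemidirectProduct.ext ?_ ?_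
    · funext k
      simp only [iotaY, MonoidHom.coe_mk, OneHom.coe_mk, Subgroup.coe_mul, mul_left, map_one,
        mul_one, one_mul, shf_apply, hx, hx', toAdd_tt, zpow_one, Pi.mul_apply, Pi.one_apply]
      by_cases h1 : k < 0
      · simp [h1, show k - 1 < 0 by omega]
      · by_cases h2 : k = 0
        · simp [h2]
        · have h3 : ¬ k - 1 < 0 := by omega
          simp [h1, h2, h3]
    · simp [iotaY]

/-- Elements with trivial shift part supported in `[-K, K]`. -/
def DD (lam : L →* Multiplicative ℤ) (x x' : L) (K : ℕ) : Subgroup (YY lam x x') where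
  carrier := {w | w.1.right = 1 ∧ ∀ k : ℤ, (k < -K ∨ (K : ℤ) < k) → w.1.left k = 1}
  one_mem' := ⟨rfl, fun k _ => rfl⟩
  mul_mem' := by
    rintro v w ⟨h1, h2⟩ ⟨h1', h2'⟩
    refine ⟨?_, fun k hk => ?_⟩
    · rw [Subgroup.coe_mul, mul_right, h1, h1', one_mul]
    · rw [Subgroup.coe_mul, mul_left, h1, map_one, MulAut.one_apply, Pi.mul_apply, h2 k hk,
        h2' k hk, one_mul]
  inv_mem' := by
    rintro v ⟨h1, h2⟩
    refine ⟨?_, fun k hk => ?_⟩
    · rw [Subgroup.coe_inv, inv_right, h1, inv_one]
    · rw [Subgroup.coe_inv, inv_left, h1, inv_one, map_one, MulAut.one_apply, Pi.inv_apply,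
        h2 k hk, inv_one]

/-- Restriction to a cyclic group of coordinates. -/
def restr (K : ℕ) : DD lam x x' K →* (ZMod (2 * K + 1) → L) where
  toFun w j := w.1.1.left j.valMinAbs
  map_one' := by funext j; simp
  map_mul' := by
    rintro ⟨v, h1, h2⟩ ⟨w, h1', h2'⟩
    funext j
    show (v.1 * w.1).left _ = v.1.left _ * w.1.left _
    rw [mul_left, h1, map_one, MulAut.one_apply, Pi.mul_apply]

theorem valMinAbs_cast {K : ℕ} {k : ℤ} (h1 : -(K : ℤ) ≤ k) (h2 : k ≤ K) :
    ((k : ZMod (2 * K + 1))).valMinAbs = k := by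
  rw [ZMod.valMinAbs_spec]
  refine ⟨rfl, ?_, ?_⟩
  · push_cast; omega
  · push_cast; omega

theorem valMinAbs_bounds {K : ℕ} (j : ZMod (2 * K + 1)) :
    -(K : ℤ) ≤ j.valMinAbs ∧ j.valMinAbs ≤ K := by
  have h := ((ZMod.valMinAbs_spec j j.valMinAbs).1 rfl).2
  obtain ⟨h1, h2⟩ := h
  push_cast at h1 h2
  omega

theorem restr_injective (K : ℕ) : Function.Injective (restr (lam := lam) (x := x) (x' := x') K) := by
  rw [injective_iff_map_eq_one]
  rintro ⟨w, h1, h2⟩ hw
  apply Subtype.ext
  apply Subtype.ext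
  refine SemidirectProduct.ext ?_ h1
  funext k
  by_cases hk : k < -K ∨ (K : ℤ) < k
  · exact h2 k hk
  · rw [not_or, not_lt, not_lt] at hk
    have := congrFun hw (k : ZMod (2 * K + 1))
    simp only [restr, MonoidHom.coe_mk, OneHom.coe_mk, valMinAbs_cast hk.1 hk.2] at this
    exact this

theorem exists_DD (w : YY lam x x') (h1 : lamY lam x x' w = 1) (h2 : w.1.right = 1) :
    ∃ K : ℕ, w ∈ DD lam x x' K := by
  obtain ⟨w, m, hm, K, h3, h4⟩ := w
  have hm0 : m = 0 := by
    have h5 : lam (w.left 0) = 1 := h1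
    rw [hm] at h5
    exact Multiplicative.ofAdd.injective h5
  subst hm0
  refine ⟨K, h2, ?_⟩
  rintro k (hk | hk)
  · exact (h3 k hk).trans (zpow_zero x)
  · exact (h4 k hk).trans (zpow_zero x')

theorem DD_mono {K K' : ℕ} (h : K ≤ K') : DD lam x x' K ≤ DD lam x x' K' := by
  rintro w ⟨h1, h2⟩
  refine ⟨h1, fun k hk => h2 k ?_⟩
  omega

theorem exists_DD_finset (S : Finset (YY lam x x'))
    (hS : ∀ s ∈ S, lamY lam x x' s = 1 ∧ s.1.right = 1) :
    ∃ K : ℕ, ∀ s ∈ S, s ∈ DD lam x x' K := by
  classical
  have h : ∀ s ∈ S, ∃ K : ℕ, s ∈ DD lam x x' K := fun s hs => exists_DD s (hS s hs).1 (hS s hs).2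
  choose! K hK using h
  exact ⟨S.sup K, fun s hs => DD_mono (Finset.le_sup hs) (hK s hs)⟩

/-- The projection of the shift extension. -/
def prY (lam : L →* Multiplicative ℤ) (x x' : L) :
    YY lam x x' →* Multiplicative ℤ × Multiplicative ℤ :=
  (lamY lam x x').prod (rightHom.comp (YY lam x x').subtype)

theorem prY_eq_one (w : YY lam x x') :
    prY lam x x' w = 1 ↔ lamY lam x x' w = 1 ∧ w.1.right = 1 := by
  rw [prY, MonoidHom.prod_apply, Prod.mk_eq_one]
  rfl

theorem IsFJClass.YY_mem (hP : IsFJClass P) (hL : P L) (lam : L →* Multiplicative ℤ)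
    (x x' : L) : P (YY lam x x') := by
  classical
  refine H12.ext_mem hP (prY lam x x') (hP.prod hP.int hP.int) ?_ ?_
  · refine hP.locally fun S => ?_
    obtain ⟨K, hK⟩ := exists_DD_finset (lam := lam) (x := x) (x' := x') (S.image Subtype.val) (by
      intro s hs
      obtain ⟨⟨s, h⟩, -, rfl⟩ := Finset.mem_image.1 hs
      exact (prY_eq_one s).1 h)
    refine ⟨(DD lam x x' K).comap (prY lam x x').ker.subtype, fun s hs => ?_, ?_⟩
    · exact hK _ (Finset.mem_image_of_mem _ hs)
    · refine hP.of_injective (H := ZMod (2 * K + 1) → L)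
        ((restr K).comp ((prY lam x x').ker.subtype.subgroupComap (DD lam x x' K))) ?_ (hP.pi hL)
      refine (restr_injective K).comp ?_
      intro a b hab
      apply Subtype.ext
      apply Subtype.ext
      exact congrArg (fun w : DD lam x x' K => (w : YY lam x x')) hab
  · intro g _ S hS
    obtain ⟨K, hK⟩ := exists_DD_finset S fun s hs => (prY_eq_one s).1 (hS s hs)
    let b : ℤ := Multiplicative.toAdd g.1.right
    let K' : ℕ := K + b.natAbs
    let m : UW (ZMod (2 * K' + 1)) L :=
      ⟨fun j => g.1.left j.valMinAbs, Multiplicative.ofAdd (b : ZMod (2 * K' + 1))⟩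
    have hMP : P (UW (ZMod (2 * K' + 1)) L) := by
      have : Finite (Multiplicative (ZMod (2 * K' + 1))) :=
        inferInstanceAs (Finite (ZMod (2 * K' + 1)))
      exact hP.semidirect_finite _ (hP.pi hL)
    refine ⟨DD lam x x' K', UW (ZMod (2 * K' + 1)) L, inferInstance, inl.comp (restr K'), m, hMP,
      inl_injective.comp (restr_injective K'), fun s hs => ?_⟩
    have hsK := hK s hs
    have hs1 : s ∈ DD lam x x' K' := DD_mono (Nat.le_add_right _ _) hsK
    have hconj : (g * s * g⁻¹).1 =
        inl (fun k => g.1.left k * s.1.left (k - b) * (g.1.left k)⁻¹) := by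
      have h1 : s.1 = inl s.1.left := SemidirectProduct.ext rfl hsK.1
      show g.1 * s.1 * g.1⁻¹ = _
      conv_lhs => rw [h1]
      rw [conj_inl]
    have hs2 : g * s * g⁻¹ ∈ DD lam x x' K' := by
      refine ⟨by rw [hconj]; rfl, fun k hk => ?_⟩
      rw [hconj]
      show g.1.left k * s.1.left (k - b) * (g.1.left k)⁻¹ = 1
      rw [hsK.2 (k - b) (by omega), mul_one, mul_inv_cancel]
    refine ⟨hs1, hs2, ?_⟩
    show inl (restr K' ⟨g * s * g⁻¹, hs2⟩) = m * inl (restr K' ⟨s, hs1⟩) * m⁻¹
    rw [conj_inl]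
    congr 1
    funext j
    show (g * s * g⁻¹).1.left j.valMinAbs = g.1.left j.valMinAbs *
      s.1.left (j - (b : ZMod (2 * K' + 1))).valMinAbs * (g.1.left j.valMinAbs)⁻¹
    rw [hconj]
    show g.1.left j.valMinAbs * s.1.left (j.valMinAbs - b) * (g.1.left j.valMinAbs)⁻¹ = _
    congr 2
    -- the two coordinates agree or both are outside the support
    have hj := valMinAbs_bounds j
    set j' : ZMod (2 * K' + 1) := j - (b : ZMod (2 * K' + 1)) with hj'
    have hjb := valMinAbs_bounds j'
    have hcj : ((j.valMinAbs : ℤ) : ZMod (2 * K' + 1)) = j := ZMod.coe_valMinAbs j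
    have hcj' : ((j'.valMinAbs : ℤ) : ZMod (2 * K' + 1)) = j' := ZMod.coe_valMinAbs j'
    by_cases h1 : -(K : ℤ) ≤ j.valMinAbs - b ∧ j.valMinAbs - b ≤ K
    · have h2 : j'.valMinAbs = j.valMinAbs - b := by
        have h3 : ((j.valMinAbs - b : ℤ) : ZMod (2 * K' + 1)) = j' := by
          rw [Int.cast_sub, hcj]
        rw [← h3]
        exact valMinAbs_cast (by omega) (by omega)
      rw [h2]
    · by_cases h4 : -(K : ℤ) ≤ j'.valMinAbs ∧ j'.valMinAbs ≤ K
      · exfalso
        apply h1
        have h2 : j.valMinAbs = j'.valMinAbs + b := by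
          have h3 : ((j'.valMinAbs + b : ℤ) : ZMod (2 * K' + 1)) = j := by
            rw [Int.cast_add, hcj', hj', sub_add_cancel]
          rw [← h3]
          exact valMinAbs_cast (by omega) (by omega)
        rw [h2]
        omega
      · rw [hsK.2 _ (by omega), hsK.2 _ (by omega)]

/-- Inside the class, a group with a homomorphism to the infinite cyclic group embeds in a larger
one in which finitely many given pairs of sections become conjugate. -/
theorem IsFJClass.exists_conj (hP : IsFJClass P) :
    ∀ (n : ℕ) (L : Type) [Group L] (_ : P L) (lam : L →* Multiplicative ℤ) (x x' : Fin n → L)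
      (_ : ∀ i, lam (x i) = tt) (_ : ∀ i, lam (x' i) = tt),
      ∃ (Y : Type) (_ : Group Y) (ι : L →* Y), P Y ∧ Function.Injective ι ∧
        ∀ i, ∃ y : Y, ι (x i) * y = y * ι (x' i) := by
  intro n
  induction n with
  | zero =>
    intro L _ hL lam x x' _ _
    exact ⟨L, inferInstance, MonoidHom.id L, hL, Function.injective_id, fun i => i.elim0⟩
  | succ n ih =>
    intro L _ hL lam x x' hx hx'
    obtain ⟨Y, _, ι, hY, hι, h⟩ := ih (YY lam (x 0) (x' 0)) (hP.YY_mem hL lam (x 0) (x' 0))
      (lamY lam (x 0) (x' 0)) (fun i => iotaY (hx 0) (hx' 0) (x i.succ))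
      (fun i => iotaY (hx 0) (hx' 0) (x' i.succ)) (fun i => by rw [lamY_iotaY]; exact hx _)
      (fun i => by rw [lamY_iotaY]; exact hx' _)
    refine ⟨Y, inferInstance, ι.comp (iotaY (hx 0) (hx' 0)), hY,
      hι.comp (iotaY_injective _ _), fun i => ?_⟩
    refine Fin.cases ?_ (fun i => h i) i
    obtain ⟨s, hs⟩ := iotaY_conj (hx 0) (hx' 0)
    refine ⟨ι s, ?_⟩
    rw [MonoidHom.comp_apply, MonoidHom.comp_apply, ← map_mul, hs, map_mul]

end

end Pool.Agent.FJ
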