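import Pool.Agent.Lib.MP_98022b_h66.Emb
import Pool.Agent.Lib.MP_98022b_h66.Shift

/-!
# Cocompact actions on trees with normalized cyclic edge stabilizers
-/

set_option autoImplicit false

namespace Pool.Agent.FJ

open SimpleGraph Monoid SemidirectProduct

variable {P : ∀ (G : Type) [Group G], Prop}

section

variable {X G : Type} [Group G] [MulAction G X]

/-- The class of a point. -/
def cl (G : Type) [Group G] [MulAction G X] (x : X) : MulAction.orbitRel.Quotient G X :=
  Quotient.mk (MulAction.orbitRel G X) x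

/-- The representative of the orbit of a point. -/
noncomputable def rp (G : Type) [Group G] [MulAction G X] (x : X) : X :=
  Quotient.out (cl G x)

theorem cl_smul (g : G) (x : X) : cl G (g • x) = cl G x :=
  Quotient.sound ⟨g, rfl⟩

theorem rp_smul (g : G) (x : X) : rp G (g • x) = rp G x := by
  unfold rp; rw [cl_smul]

theorem exists_tau (x : X) : ∃ g : G, g • rp G x = x := by
  obtain ⟨g, hg⟩ : (MulAction.orbitRel G X).r (rp G x) x := Quotient.mk_out x
  exact ⟨g⁻¹, by rw [← hg]; simp⟩

/-- An element moving the representative of the orbit to the given point. -/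
noncomputable def tau (G : Type) [Group G] [MulAction G X] (x : X) : G :=
  (exists_tau (G := G) x).choose

theorem tau_smul (x : X) : tau G x • rp G x = x := (exists_tau (G := G) x).choose_spec

theorem tau_inv_smul (x : X) : (tau G x)⁻¹ • x = rp G x := by
  rw [inv_smul_eq_iff, tau_smul]

end

section

variable {V M G : Type} [Group M] [Group G] [MulAction G V] {T : SimpleGraph V}

/-- The label of an edge with first vertex of colour `false`. -/
noncomputable def Lam (C : G → V → M) (y : V × V → M) (e : V × V) : M :=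
  C (tau G e) (rp G e).1 * y (rp G e) * (C (tau G e) (rp G e).2)⁻¹

theorem Lam_smul (C : G → V → M) (hC : ∀ g h v, C (g * h) v = C g (h • v) * C h v)
    (y : V × V → M) (e : V × V)
    (hy : ∀ s : G, s • rp G e = rp G e →
      C s (rp G e).1 * y (rp G e) = y (rp G e) * C s (rp G e).2) (g : G) :
    Lam C y (g • e) = C g e.1 * Lam C y e * (C g e.2)⁻¹ := by
  have h1 : rp G (g • e) = rp G e := rp_smul g e
  set s : G := (g * tau G e)⁻¹ * tau G (g • e) with hs
  have h2 : tau G (g • e) = g * tau G e * s := by rw [hs]; group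
  have h3 : s • rp G e = rp G e := by
    have h4 : tau G (g • e) • rp G e = g • e := by
      have := tau_smul (G := G) (g • e)
      rwa [h1] at this
    rw [hs, mul_smul, h4, mul_inv_rev, mul_smul, inv_smul_smul, tau_inv_smul]
  have h4 := hy s h3
  have h5 : s • (rp G e).1 = (rp G e).1 := congrArg Prod.fst h3
  have h6 : s • (rp G e).2 = (rp G e).2 := congrArg Prod.snd h3
  have h7 : tau G e • (rp G e).1 = e.1 := congrArg Prod.fst (tau_smul (G := G) e)
  have h8 : tau G e • (rp G e).2 = e.2 := congrArg Prod.snd (tau_smul (G := G) e)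
  unfold Lam
  rw [h1, h2, hC _ s, hC _ s, h5, h6, hC g, hC g, h7, h8, mul_inv_rev, mul_inv_rev]
  have h9 : C s (rp G e).1 * y (rp G e) * (C s (rp G e).2)⁻¹ = y (rp G e) := by
    rw [h4, mul_inv_cancel_right]
  calc C g e.1 * C (tau G e) (rp G e).1 * C s (rp G e).1 * y (rp G e) *
        ((C s (rp G e).2)⁻¹ * ((C (tau G e) (rp G e).2)⁻¹ * (C g e.2)⁻¹))
      = C g e.1 * C (tau G e) (rp G e).1 *
        (C s (rp G e).1 * y (rp G e) * (C s (rp G e).2)⁻¹) *
          (C (tau G e) (rp G e).2)⁻¹ * (C g e.2)⁻¹ := by simp only [mul_assoc]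
    _ = _ := by rw [h9]; simp only [mul_assoc]

theorem exists_hom_of_cocycle (hT : T.IsTree)
    (hadj : ∀ (g : G) u v, T.Adj u v → T.Adj (g • u) (g • v))
    (col : V → Bool) (hTc : ∀ u v, T.Adj u v → col u ≠ col v)
    (hcol : ∀ (g : G) v, col (g • v) = col v)
    (C : G → V → M) (hC : ∀ g h v, C (g * h) v = C g (h • v) * C h v)
    (y : V × V → M)
    (hy : ∀ e : V × V, T.Adj e.1 e.2 → ∀ s : G, s • rp G e = rp G e →
      C s (rp G e).1 * y (rp G e) = y (rp G e) * C s (rp G e).2) :
    ∃ Φ : G →* M, ∀ v, ∃ m : M, ∀ g : G, g • v = v → Φ g = m * C g v * m⁻¹ := by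
  obtain ⟨v₀⟩ := hT.connected.nonempty
  let L : V → V → M := fun u v => if col u then (Lam C y (v, u))⁻¹ else Lam C y (u, v)
  obtain ⟨φ, Φ, -, -, -, h4⟩ := exists_rec (M := M) hT hadj L (fun u v h => by
      have h1 := hTc u v h
      simp only [L]
      cases hu : col u <;> cases hv : col v <;> simp_all) C hC (fun g u v h => by
      simp only [L, hcol]
      split
      · have := Lam_smul C hC y (v, u) (hy (v, u) h.symm) g
        rw [show (g • v, g • u) = g • (v, u) from rfl, this]
        simp [mul_assoc]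
      · exact Lam_smul C hC y (u, v) (hy (u, v) h) g) v₀
  refine ⟨Φ, fun v => ⟨φ v, fun g hg => ?_⟩⟩
  have := h4 g v
  rw [hg] at this
  rw [this, mul_inv_cancel_right]

end

section

variable {V G : Type} [Group G] [MulAction G V] {T : SimpleGraph V}

open Classical in
/-- The element of the product of vertex groups given by an element of a stabilizer. -/
noncomputable def JJ (lam : G →* Multiplicative ℤ) (o : MulAction.orbitRel.Quotient G V) (x : G) :
    (∀ o : MulAction.orbitRel.Quotient G V, MulAction.stabilizer G (Quotient.out o)) ×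
      Multiplicative ℤ :=
  (Pi.mulSingle o (if h : x ∈ MulAction.stabilizer G (Quotient.out o) then ⟨x, h⟩ else 1), lam x)

theorem JJ_mul (lam : G →* Multiplicative ℤ) (o : MulAction.orbitRel.Quotient G V) {x y : G}
    (hx : x • Quotient.out o = Quotient.out o) (hy : y • Quotient.out o = Quotient.out o) :
    JJ lam o (x * y) = JJ lam o x * JJ lam o y := by
  have h1 : x ∈ MulAction.stabilizer G (Quotient.out o) := hx
  have h2 : y ∈ MulAction.stabilizer G (Quotient.out o) := hy
  classical
  unfold JJ
  rw [dif_pos h1, dif_pos h2, dif_pos (mul_mem h1 h2), Prod.mk_mul_mk, ← Pi.mulSingle_mul, map_mul]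
  rfl

theorem JJ_eq_one (lam : G →* Multiplicative ℤ) (o : MulAction.orbitRel.Quotient G V) {x : G}
    (hx : x • Quotient.out o = Quotient.out o) (h : JJ lam o x = 1) : x = 1 := by
  have h1 : x ∈ MulAction.stabilizer G (Quotient.out o) := hx
  have h2 := congrFun (congrArg Prod.fst h) o
  unfold JJ at h2
  rw [dif_pos h1] at h2
  simp only [Pi.mulSingle_eq_same, Prod.fst_one, Pi.one_apply] at h2
  exact congrArg Subtype.val h2

/-- The vertex cocycle. -/
noncomputable def cc (lam : G →* Multiplicative ℤ) (g : G) (u : V) :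
    (∀ o : MulAction.orbitRel.Quotient G V, MulAction.stabilizer G (Quotient.out o)) ×
      Multiplicative ℤ :=
  JJ lam (cl G u) ((tau G (g • u))⁻¹ * g * tau G u)

theorem kap_mem (g : G) (u : V) : ((tau G (g • u))⁻¹ * g * tau G u) • rp G u = rp G u := by
  rw [mul_smul, mul_smul, tau_smul, tau_inv_smul, rp_smul]

theorem cc_mul (lam : G →* Multiplicative ℤ) (g h : G) (u : V) :
    cc lam (g * h) u = cc lam g (h • u) * cc lam h u := by
  unfold cc
  have h1 := kap_mem g (h • u)
  rw [rp_smul] at h1
  rw [cl_smul, ← JJ_mul lam (cl G u) h1 (kap_mem h u), mul_smul]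
  congr 1
  group

theorem cc_snd (lam : G →* Multiplicative ℤ) {s : G} {u : V} (hs : s • u = u) :
    (cc lam s u).2 = lam s := by
  show lam ((tau G (s • u))⁻¹ * s * tau G u) = lam s
  rw [hs, map_mul, map_mul, map_inv, mul_comm, ← mul_assoc, mul_inv_cancel, one_mul]

theorem cc_injective (lam : G →* Multiplicative ℤ) {s : G} {u : V} (hs : s • u = u)
    (h : cc lam s u = 1) : s = 1 := by
  have h1 := JJ_eq_one lam (cl G u) (kap_mem s u) h
  rw [hs] at h1
  have h2 : s = tau G u * ((tau G u)⁻¹ * s * tau G u) * (tau G u)⁻¹ := by group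
  rw [h2, h1, mul_one, mul_inv_cancel]

theorem cc_zpow (lam : G →* Multiplicative ℤ) {s : G} {u : V} (hs : s • u = u) (k : ℤ) :
    cc lam (s ^ k) u = cc lam s u ^ k := by
  let f : MulAction.stabilizer G u →* _ :=
    { toFun := fun s => cc lam (s : G) u
      map_one' := by
        have h := cc_mul lam 1 1 u
        rw [mul_one, one_smul] at h
        exact (mul_eq_left.1 h.symm)
      map_mul' := fun a b => by
        have := cc_mul lam (a : G) (b : G) u
        rw [show (b : G) • u = u from b.2] at this
        exact this }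
  have := map_zpow f ⟨s, hs⟩ k
  simpa [f] using this

/-- Cocompact actions with normalized cyclic edge stabilizers. -/
theorem IsFJClass.tree_core (hP : IsFJClass P) (hT : T.IsTree)
    (hadj : ∀ (g : G) u v, T.Adj u v → T.Adj (g • u) (g • v))
    (col : V → Bool) (hTc : ∀ u v, T.Adj u v → col u ≠ col v)
    (hcol : ∀ (g : G) v, col (g • v) = col v)
    (hVfin : Finite (MulAction.orbitRel.Quotient G V))
    (hEfin : ∃ E₀ : Finset (V × V), ∀ e : V × V, T.Adj e.1 e.2 → rp G e ∈ E₀)
    (hV : ∀ v : V, P (MulAction.stabilizer G v))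
    (lam : G →* Multiplicative ℤ)
    (hinj : ∀ u v, T.Adj u v → ∀ s : G, s • u = u → s • v = v → lam s = 1 → s = 1)
    (hgen : ∀ u v, T.Adj u v → (∀ s : G, s • u = u → s • v = v → s = 1) ∨
      ∃ c : G, c • u = u ∧ c • v = v ∧ lam c = tt) : P G := by
  classical
  obtain ⟨E₀, hE₀⟩ := hEfin
  -- the generators of the edge groups
  have hc : ∀ e : V × V, ∃ c : G, (T.Adj e.1 e.2 →
      (∀ s : G, s • e = e → s = 1) ∨ (c • e = e ∧ lam c = tt)) := by
    intro e
    by_cases h : T.Adj e.1 e.2
    · rcases hgen _ _ h with h1 | ⟨c, h1, h2, h3⟩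
      · exact ⟨1, fun _ => Or.inl fun s hs =>
          h1 s (congrArg Prod.fst hs) (congrArg Prod.snd hs)⟩
      · exact ⟨c, fun _ => Or.inr ⟨Prod.ext h1 h2, h3⟩⟩
    · exact ⟨1, fun h' => absurd h' h⟩
  choose cg hcg using hc
  let L0 : Type := (∀ o : MulAction.orbitRel.Quotient G V,
    MulAction.stabilizer G (Quotient.out o)) × Multiplicative ℤ
  have hL0 : P L0 := hP.prod (hP.pi' fun o => hV _) hP.int
  let x : V × V → L0 := fun e =>
    if cg e • e = e ∧ lam (cg e) = tt then cc lam (cg e) e.1 else (1, tt)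
  let x' : V × V → L0 := fun e =>
    if cg e • e = e ∧ lam (cg e) = tt then cc lam (cg e) e.2 else (1, tt)
  have hx : ∀ e, (x e).2 = tt := by
    intro e
    by_cases h : cg e • e = e ∧ lam (cg e) = tt
    · simp only [x, if_pos h]
      rw [cc_snd lam (congrArg Prod.fst h.1), h.2]
    · simp only [x, if_neg h]
  have hx' : ∀ e, (x' e).2 = tt := by
    intro e
    by_cases h : cg e • e = e ∧ lam (cg e) = tt
    · simp only [x', if_pos h]
      rw [cc_snd lam (congrArg Prod.snd h.1), h.2]
    · simp only [x', if_neg h]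
  obtain ⟨Y, _, ι, hY, hι, hconj⟩ := hP.exists_conj E₀.card L0 hL0
    (MonoidHom.snd _ _) (fun i => x (E₀.equivFin.symm i)) (fun i => x' (E₀.equivFin.symm i))
    (fun i => hx _) (fun i => hx' _)
  have hconj' : ∀ e : V × V, ∃ y : Y, e ∈ E₀ → ι (x e) * y = y * ι (x' e) := by
    intro e
    by_cases he : e ∈ E₀
    · obtain ⟨y, hy⟩ := hconj (E₀.equivFin ⟨e, he⟩)
      refine ⟨y, fun _ => ?_⟩
      simpa using hy
    · exact ⟨1, fun h => absurd h he⟩
  choose y hy using hconj'
  obtain ⟨Φ, hΦ⟩ := exists_hom_of_cocycle (M := Y) hT hadj col hTc hcol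
    (fun g u => ι (cc lam g u)) (fun g h v => by rw [cc_mul, map_mul]) y (by
      intro e he s hs
      have hr : T.Adj (rp G e).1 (rp G e).2 := by
        have h1 := tau_inv_smul (G := G) e
        rw [← h1]
        exact hadj _ _ _ he
      rcases hcg (rp G e) hr with h1 | h1
      · have : s = 1 := h1 s hs
        subst this
        have h2 : ∀ u : V, cc lam (1 : G) u = 1 := fun u => by
          have h := cc_mul lam 1 1 u
          rw [mul_one, one_smul] at h
          exact (mul_eq_left.1 h.symm)
        rw [h2, h2, map_one, one_mul, mul_one]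
      · have h2 := hy (rp G e) (hE₀ e he)
        simp only [x, x', if_pos h1] at h2
        have hs1 : s • (rp G e).1 = (rp G e).1 := congrArg Prod.fst hs
        have hs2 : s • (rp G e).2 = (rp G e).2 := congrArg Prod.snd hs
        have hc1 : cg (rp G e) • (rp G e).1 = (rp G e).1 := congrArg Prod.fst h1.1
        have hc2 : cg (rp G e) • (rp G e).2 = (rp G e).2 := congrArg Prod.snd h1.1
        have hk : s = cg (rp G e) ^ (Multiplicative.toAdd (lam s)) := by
          have h3 : lam (s * (cg (rp G e) ^ (Multiplicative.toAdd (lam s)))⁻¹) = 1 := by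
            rw [map_mul, map_inv, map_zpow, h1.2]
            have : tt ^ (Multiplicative.toAdd (lam s)) = lam s := by
              apply Multiplicative.toAdd.injective
              simp [tt]
            rw [this, mul_inv_cancel]
          have hz1 : ∀ k : ℤ, cg (rp G e) ^ k ∈ MulAction.stabilizer G (rp G e).1 := fun k =>
            zpow_mem hc1 k
          have hz2 : ∀ k : ℤ, cg (rp G e) ^ k ∈ MulAction.stabilizer G (rp G e).2 := fun k =>
            zpow_mem hc2 k
          have h4 := hinj _ _ hr _ (mul_mem (show s ∈ MulAction.stabilizer G (rp G e).1 from hs1)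
            (inv_mem (hz1 _))) (mul_mem (show s ∈ MulAction.stabilizer G (rp G e).2 from hs2)
            (inv_mem (hz2 _))) h3
          exact mul_inv_eq_one.1 h4
        rw [hk, cc_zpow lam hc1, cc_zpow lam hc2, map_zpow, map_zpow]
        exact (SemiconjBy.zpow_right (a := y (rp G e)) (x := ι (cc lam (cg (rp G e)) (rp G e).2))
          (y := ι (cc lam (cg (rp G e)) (rp G e).1)) h2.symm _).symm)
  refine hP.tree_of_vertex_injective Φ hT hadj col hTc hcol hY fun v g hg h1 => ?_
  obtain ⟨m, hm⟩ := hΦ v
  have h2 := hm g hg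
  rw [h1] at h2
  have h3 : ι (cc lam g v) = 1 := by
    have h4 : ι (cc lam g v) = m⁻¹ * (m * ι (cc lam g v) * m⁻¹) * m := by group
    rw [h4, ← h2]
    group
  exact cc_injective lam hg (hι (h3.trans (map_one ι).symm))

end

end Pool.Agent.FJ
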