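import Pool.Agent.Lib.MP_98022b_h66.Pot
import Pool.Agent.Lib.MP_98022b_h71.Base

/-!
# Groups acting on trees with a homomorphism that is injective on vertex stabilizers
-/

set_option autoImplicit false

namespace Pool.Agent.FJ

open SimpleGraph Monoid SemidirectProduct

variable {P : ∀ (G : Type) [Group G], Prop}

section

variable {V G Y : Type} [Group G] [MulAction G V] [Group Y]

/-- Two pairs are identified if some element of `G` moves one to the other. -/
def omSetoid (V : Type) [MulAction G V] (F : G →* Y) : Setoid (Y × V × V) where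
  r a b := ∃ g : G, b.1 = a.1 * (F g)⁻¹ ∧ b.2 = g • a.2
  iseqv := by
    refine ⟨fun a => ⟨1, by simp⟩, ?_, ?_⟩
    · rintro a b ⟨g, h1, h2⟩
      exact ⟨g⁻¹, by rw [h1]; simp, by rw [h2]; simp⟩
    · rintro a b c ⟨g, h1, h2⟩ ⟨h, h3, h4⟩
      exact ⟨h * g, by rw [h3, h1]; simp [mul_assoc], by rw [h4, h2, mul_smul]⟩

/-- The index set of the letters. -/
def Om (V : Type) [MulAction G V] (F : G →* Y) : Type := Quotient (omSetoid V F)

variable (F : G →* Y)

/-- The index of a pair. -/
def om (y : Y) (e : V × V) : Om V F := Quotient.mk (omSetoid V F) (y, e)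

theorem om_eq_iff {y y' : Y} {e e' : V × V} :
    om F y e = om F y' e' ↔ ∃ g : G, y' = y * (F g)⁻¹ ∧ e' = g • e :=
  ⟨fun h => Quotient.exact h, fun h => Quotient.sound h⟩

instance omAction : MulAction Y (Om V F) where
  smul y := Quotient.map (fun a => (y * a.1, a.2)) (by
    rintro a b ⟨g, h1, h2⟩
    exact ⟨g, by simp [h1, mul_assoc], h2⟩)
  one_smul x := by
    induction x using Quotient.inductionOn with
    | _ a => exact congrArg (Quotient.mk _) (by simp)
  mul_smul y y' x := by
    induction x using Quotient.inductionOn with
    | _ a => exact congrArg (Quotient.mk _) (by simp [mul_assoc])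

theorem smul_om (y y' : Y) (e : V × V) : y • om F y' e = om F (y * y') e := rfl

theorem om_smul (g : G) (e : V × V) : om F 1 (g • e) = F g • om F 1 e := by
  rw [smul_om, mul_one]
  exact ((om_eq_iff F).2 ⟨g, by simp, rfl⟩).symm

/-- The target of the embedding. -/
abbrev TE (V : Type) [MulAction G V] (F : G →* Y) : Type :=
  (Twist.triv Y (Om V F) (Multiplicative ℤ)).Prod

/-- Index of an oriented edge. -/
def ix (col : V → Bool) (u v : V) : Om V F := if col u then om F 1 (v, u) else om F 1 (u, v)

/-- Exponent of an oriented edge. -/
def ex (col : V → Bool) (u : V) : Multiplicative ℤ := if col u then tt⁻¹ else tt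

theorem ex_ne_one (col : V → Bool) (u : V) : ex col u ≠ 1 := by
  unfold ex
  split
  · exact inv_ne_one.2 tt_ne_one
  · exact tt_ne_one

/-- The label of an oriented edge. -/
def lab (col : V → Bool) (u v : V) : TE V F := inl (gen (ix F col u v) (ex col u))

theorem lab_symm (col : V → Bool) {u v : V} (h : col u ≠ col v) :
    lab F col v u = (lab F col u v)⁻¹ := by
  unfold lab ix ex
  cases hu : col u <;> cases hv : col v <;> simp_all

theorem lab_smul (col : V → Bool) (hcol : ∀ (g : G) v, col (g • v) = col v) (g : G) (u v : V) :
    lab F col (g • u) (g • v) = inr (F g) * lab F col u v * (inr (F g))⁻¹ := by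
  have h := (Twist.triv Y (Om V F) (Multiplicative ℤ)).conj_gen (F g) (ix F col u v) (ex col u)
  have h1 : ix F col (g • u) (g • v) = F g • ix F col u v := by
    unfold ix
    rw [hcol]
    split
    · exact om_smul F g (v, u)
    · exact om_smul F g (u, v)
  have h2 : ex col (g • u) = ex col u := by unfold ex; rw [hcol]
  unfold lab
  rw [h1, h2]
  exact h

/-- The list of letters of a walk. -/
def letters {T : SimpleGraph V} (col : V → Bool) :
    ∀ {u v : V}, T.Walk u v → List (Σ _ : Om V F, Multiplicative ℤ)
  | _, _, .nil => []
  | _, _, .cons (u := u) (v := v) _ p => ⟨ix F col u v, ex col u⟩ :: letters col p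

theorem wt_lab {T : SimpleGraph V} (col : V → Bool) {u v : V} (p : T.Walk u v) :
    wt (lab F col) p = inl (((letters F col p).map fun a => gen a.1 a.2).prod) := by
  induction p with
  | nil => simp [letters]
  | cons h p ih => simp [letters, ih, lab]

theorem letters_ne_one {T : SimpleGraph V} (col : V → Bool) {u v : V} (p : T.Walk u v) :
    ∀ a ∈ letters F col p, a.2 ≠ 1 := by
  induction p with
  | nil => simp [letters]
  | cons h p ih =>
    intro a ha
    simp only [letters, List.mem_cons] at ha
    rcases ha with rfl | ha
    · exact ex_ne_one col _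
    · exact ih a ha

theorem ix_ne {T : SimpleGraph V} (col : V → Bool) (hTc : ∀ u v, T.Adj u v → col u ≠ col v)
    (hF : ∀ (v : V) (g : G), g • v = v → F g = 1 → g = 1) {u v w : V} (huv : T.Adj u v)
    (hvw : T.Adj v w) (h : u ≠ w) : ix F col u v ≠ ix F col v w := by
  intro heq
  have h1 := hTc u v huv
  have h2 := hTc v w hvw
  unfold ix at heq
  cases hu : col u with
  | false =>
    have hv : col v = true := by
      cases hv : col v with
      | false => exact absurd (hu.trans hv.symm) h1
      | true => rfl
    rw [hu, hv] at heq
    simp only [Bool.false_eq_true, if_false, if_true] at heq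
    obtain ⟨g, h3, h4⟩ := (om_eq_iff F).1 heq
    have h5 : F g = 1 := by simpa using h3.symm
    have h6 : w = g • u := congrArg Prod.fst h4
    have h7 : v = g • v := congrArg Prod.snd h4
    have h8 := hF v g h7.symm h5
    rw [h8, one_smul] at h6
    exact h h6.symm
  | true =>
    have hv : col v = false := by
      cases hv : col v with
      | false => rfl
      | true => exact absurd (hu.trans hv.symm) h1
    rw [hu, hv] at heq
    simp only [Bool.false_eq_true, if_false, if_true] at heq
    obtain ⟨g, h3, h4⟩ := (om_eq_iff F).1 heq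
    have h5 : F g = 1 := by simpa using h3.symm
    have h6 : w = g • u := congrArg Prod.snd h4
    have h7 : v = g • v := congrArg Prod.fst h4
    have h8 := hF v g h7.symm h5
    rw [h8, one_smul] at h6
    exact h h6.symm

theorem letters_chain {T : SimpleGraph V} (col : V → Bool)
    (hTc : ∀ u v, T.Adj u v → col u ≠ col v)
    (hF : ∀ (v : V) (g : G), g • v = v → F g = 1 → g = 1) {u v : V} (p : T.Walk u v)
    (hp : p.IsPath) : (letters F col p).IsChain fun a b => a.1 ≠ b.1 := by
  induction p with
  | nil => exact List.isChain_nil
  | cons h p ih =>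
    rw [Walk.cons_isPath_iff] at hp
    have ih' := ih hp.1
    cases p with
    | nil => exact List.isChain_singleton _
    | cons h' q =>
      refine List.isChain_cons_cons.2 ⟨?_, ih'⟩
      refine ix_ne F col hTc hF h h' ?_
      rintro rfl
      exact hp.2 (by simp)

/-- **Embedding theorem.** A group acting on a tree is in the class if it has a homomorphism to a
group of the class that is injective on the vertex stabilizers. -/
theorem IsFJClass.tree_of_vertex_injective (hP : IsFJClass P) {T : SimpleGraph V} (hT : T.IsTree)
    (hadj : ∀ (g : G) u v, T.Adj u v → T.Adj (g • u) (g • v))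
    (col : V → Bool) (hTc : ∀ u v, T.Adj u v → col u ≠ col v)
    (hcol : ∀ (g : G) v, col (g • v) = col v)
    (hY : P Y) (hF : ∀ (v : V) (g : G), g • v = v → F g = 1 → g = 1) : P G := by
  classical
  obtain ⟨v₀⟩ := hT.connected.nonempty
  obtain ⟨φ, Φ, h0, hφ, hΦ, -⟩ := exists_rec (M := TE V F) hT hadj (lab F col)
    (fun u v h => lab_symm F col (hTc u v h)) (fun g _ => inr (F g))
    (fun g h v => by rw [_root_.map_mul, _root_.map_mul]) (fun g u v _ => lab_smul F col hcol g u v)
    v₀
  refine hP.of_injective Φ ?_ (hP.free_perm hY hP.int)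
  rw [injective_iff_map_eq_one]
  intro g hg
  obtain ⟨p, hp⟩ := (hT.existsUnique_path v₀ (g • v₀)).exists
  have h1 : φ (g • v₀) = inl (((letters F col p).map fun a => gen a.1 a.2).prod) := by
    rw [hφ.walk p, h0, one_mul, wt_lab]
  rw [hΦ, h1] at hg
  have h2 : F g = 1 := by
    have := congrArg SemidirectProduct.right hg
    simpa using this
  have h3 : ((letters F col p).map fun a => gen a.1 a.2).prod = 1 := by
    have := congrArg SemidirectProduct.left hg
    simpa using this
  have h4 : letters F col p = [] := by
    by_contra hne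
    exact prod_ne_one_of_reduced _ hne (letters_ne_one F col p) (letters_chain F col hTc hF p hp) h3
  have h5 : g • v₀ = v₀ := by
    generalize g • v₀ = w at p h4
    cases p with
    | nil => rfl
    | cons h q => simp [letters] at h4
  exact hF v₀ g h5 h2

end

end Pool.Agent.FJ
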