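import Pool.Agent.Lib.MP_98022b_h71.Defs

/-!
# Groups built from a class of groups by the inheritance operations

`FJHull S G` says that `G` can be built from the infinite cyclic group and the groups of the class
`S` by the operations under which the class of groups satisfying the Farrell-Jones conjecture
(with coefficients and finite wreath products) is closed.
-/

set_option autoImplicit false

namespace Pool.Agent.FJ

/-- The smallest class of groups which contains the infinite cyclic group and all groups of the
class `S` and is closed under subgroups (and isomorphisms), overgroups of finite index, direct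
products of two groups, free products of two groups, directed colimits, and extensions
`f : G → Q` such that `Q` and the preimages of all cyclic subgroups of `Q` are in the class. -/
inductive FJHull (S : ∀ (G : Type) [Group G], Prop) : (G : Type) → [Group G] → Prop
  /-- the groups of the class `S` -/
  | base {G : Type} [Group G] (h : S G) : FJHull S G
  /-- the infinite cyclic group -/
  | int : FJHull S (Multiplicative ℤ)
  /-- subgroups (and isomorphic groups) -/
  | sub {G H : Type} [Group G] [Group H] (f : G →* H) (hf : Function.Injective f)
      (h : FJHull S H) : FJHull S G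
  /-- overgroups of finite index -/
  | finiteIndex {G : Type} [Group G] (H : Subgroup G) (hH : H.FiniteIndex)
      (h : FJHull S H) : FJHull S G
  /-- direct products -/
  | prod {G H : Type} [Group G] [Group H] (hG : FJHull S G) (hH : FJHull S H) :
      FJHull S (G × H)
  /-- free products -/
  | coprod {G H : Type} [Group G] [Group H] (hG : FJHull S G) (hH : FJHull S H) :
      FJHull S (Monoid.Coprod G H)
  /-- directed colimits: `L` is the colimit of the directed system `(G i, f i j)` with canonical
  maps `g i` -/
  | colimit {ι : Type} [Preorder ι] [IsDirectedOrder ι] [Nonempty ι]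
      (G : ι → Type) [∀ i, Group (G i)] (f : ∀ i j, i ≤ j → G i →* G j)
      {L : Type} [Group L] (g : ∀ i, G i →* L)
      (h1 : ∀ i x, f i i le_rfl x = x)
      (h2 : ∀ i j k (hij : i ≤ j) (hjk : j ≤ k) x,
        f j k hjk (f i j hij x) = f i k (hij.trans hjk) x)
      (h3 : ∀ i j (hij : i ≤ j) x, g j (f i j hij x) = g i x)
      (h4 : ∀ y, ∃ i x, g i x = y)
      (h5 : ∀ i x, g i x = 1 → ∃ j, ∃ hij : i ≤ j, f i j hij x = 1)
      (h : ∀ i, FJHull S (G i)) : FJHull S L
  /-- extensions: `f : G → Q` with `Q` and all preimages of cyclic subgroups of `Q` in the
  class -/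
  | extension {G Q : Type} [Group G] [Group Q] (f : G →* Q) (hQ : FJHull S Q)
      (h : ∀ q : Q, FJHull S ((Subgroup.zpowers q).comap f)) : FJHull S G

theorem isFJClass_fjHull (S : ∀ (G : Type) [Group G], Prop) : IsFJClass (FJHull S) where
  int := FJHull.int
  of_injective f hf h := FJHull.sub f hf h
  of_finiteIndex H hH h := FJHull.finiteIndex H hH h
  prod := FJHull.prod
  coprod := FJHull.coprod
  colimit G _ f _ _ g h1 h2 h3 h4 h5 h := FJHull.colimit G f g h1 h2 h3 h4 h5 h
  extension f hQ h := FJHull.extension f hQ h

/-- `FJHull S` is the smallest class: it is contained in every class with these closure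
properties that contains `S`. -/
theorem FJHull.mem {S P : ∀ (G : Type) [Group G], Prop} (hP : IsFJClass P)
    (hS : ∀ (H : Type) [Group H], S H → P H) {G : Type} [Group G] (h : FJHull S G) : P G := by
  induction h with
  | base h => exact hS _ h
  | int => exact hP.int
  | sub f hf _ ih => exact hP.of_injective f hf ih
  | finiteIndex H hH _ ih => exact hP.of_finiteIndex H hH ih
  | prod _ _ ih1 ih2 => exact hP.prod ih1 ih2
  | coprod _ _ ih1 ih2 => exact hP.coprod ih1 ih2
  | colimit G f g h1 h2 h3 h4 h5 _ ih => exact hP.colimit G f g h1 h2 h3 h4 h5 ih
  | extension f _ _ ih1 ih2 => exact hP.extension f ih1 ih2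

end Pool.Agent.FJ
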