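import Mathlib

/-!
# Potentials on trees and homomorphisms recorded along paths
-/

set_option autoImplicit false

namespace Pool.Agent.FJ

open SimpleGraph

variable {V M : Type} [Group M] {T : SimpleGraph V}

/-- Product of the labels along a walk. -/
def wt (L : V → V → M) : ∀ {u v : V}, T.Walk u v → M
  | _, _, .nil => 1
  | _, _, .cons (u := u) (v := v) _ p => L u v * wt L p

@[simp] theorem wt_nil (L : V → V → M) (u : V) : wt L (Walk.nil : T.Walk u u) = 1 := rfl

@[simp] theorem wt_cons (L : V → V → M) {u v w : V} (h : T.Adj u v) (p : T.Walk v w) :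
    wt L (Walk.cons h p) = L u v * wt L p := rfl

theorem wt_append (L : V → V → M) {u v w : V} (p : T.Walk u v) (q : T.Walk v w) :
    wt L (p.append q) = wt L p * wt L q := by
  induction p with
  | nil => simp
  | cons h p ih => simp [ih, mul_assoc]

/-- `φ` is a potential of the label function `L`. -/
def IsPot (T : SimpleGraph V) (L : V → V → M) (φ : V → M) : Prop :=
  ∀ u v, T.Adj u v → φ v = φ u * L u v

theorem IsPot.walk {L : V → V → M} {φ : V → M} (h : IsPot T L φ) {u v : V} (p : T.Walk u v) :
    φ v = φ u * wt L p := by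
  induction p with
  | nil => simp
  | cons hadj p ih => rw [ih, h _ _ hadj, wt_cons, mul_assoc]

theorem IsPot.eq {L : V → V → M} {φ ψ : V → M} (h : IsPot T L φ) (h' : IsPot T L ψ)
    (hT : T.Connected) {v₀ : V} (h0 : φ v₀ = ψ v₀) (v : V) : φ v = ψ v := by
  obtain ⟨p⟩ := hT.preconnected v₀ v
  rw [h.walk p, h'.walk p, h0]

/-- Labels on a tree have a potential. -/
theorem exists_pot (hT : T.IsTree) (L : V → V → M)
    (hL : ∀ u v, T.Adj u v → L v u = (L u v)⁻¹) (v₀ : V) :
    ∃ φ : V → M, φ v₀ = 1 ∧ IsPot T L φ := by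
  classical
  choose p hp using fun v => (hT.existsUnique_path v₀ v).exists
  have huniq : ∀ {u v : V} (q r : T.Walk u v), q.IsPath → r.IsPath → q = r := by
    intro u v q r hq hr
    exact (hT.existsUnique_path u v).unique hq hr
  refine ⟨fun v => wt L (p v), ?_, ?_⟩
  · have : p v₀ = Walk.nil := huniq _ _ (hp v₀) Walk.IsPath.nil
    simp [this]
  · intro u v hadj
    by_cases hv : v ∈ (p u).support
    · have h1 : (p u).takeUntil v hv = p v := huniq _ _ ((hp u).takeUntil hv) (hp v)
      have h2 : (p u).dropUntil v hv = Walk.cons hadj.symm Walk.nil :=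
        huniq _ _ ((hp u).dropUntil hv) (by simp [hadj.ne'])
      have h3 := (p u).take_spec hv
      have h4 : wt L (p u) = wt L (p v) * L v u := by
        conv_lhs => rw [← h3]
        rw [wt_append, h1, h2]
        simp
      show wt L (p v) = wt L (p u) * L u v
      rw [h4, hL u v hadj]
      group
    · have h1 : p v = (p u).concat hadj := huniq _ _ (hp v) ((hp u).concat hv hadj)
      show wt L (p v) = wt L (p u) * L u v
      rw [h1, Walk.concat_eq_append, wt_append]
      simp

section Rec

variable {G : Type} [Group G] [MulAction G V]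

/-- Recording lemma: a cocycle on vertices and equivariant labels give a homomorphism. -/
theorem exists_rec (hT : T.IsTree) (hadj : ∀ (g : G) u v, T.Adj u v → T.Adj (g • u) (g • v))
    (L : V → V → M) (hL : ∀ u v, T.Adj u v → L v u = (L u v)⁻¹)
    (c : G → V → M) (hc : ∀ g h v, c (g * h) v = c g (h • v) * c h v)
    (hcL : ∀ (g : G) u v, T.Adj u v → L (g • u) (g • v) = c g u * L u v * (c g v)⁻¹)
    (v₀ : V) : ∃ (φ : V → M) (Φ : G →* M), φ v₀ = 1 ∧ IsPot T L φ ∧
      (∀ g, Φ g = φ (g • v₀) * c g v₀) ∧
      ∀ g v, φ (g • v) * c g v = Φ g * φ v := by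
  obtain ⟨φ, h0, hφ⟩ := exists_pot hT L hL v₀
  have key : ∀ g v, φ (g • v) * c g v = φ (g • v₀) * c g v₀ * φ v := by
    intro g v
    refine IsPot.eq (T := T) (L := L) (φ := fun v => φ (g • v) * c g v)
      (ψ := fun v => φ (g • v₀) * c g v₀ * φ v) ?_ ?_ hT.connected (v₀ := v₀) ?_ v
    · intro u v huv
      show φ (g • v) * c g v = φ (g • u) * c g u * L u v
      rw [hφ _ _ (hadj g u v huv), hcL g u v huv]
      group
    · intro u v huv
      show φ (g • v₀) * c g v₀ * φ v = φ (g • v₀) * c g v₀ * φ u * L u v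
      rw [hφ _ _ huv]
      group
    · show φ (g • v₀) * c g v₀ = φ (g • v₀) * c g v₀ * φ v₀
      rw [h0, mul_one]
  have hc1 : c 1 v₀ = 1 := by
    have h := hc 1 1 v₀
    rw [mul_one, one_smul] at h
    exact (mul_eq_left.1 h.symm)
  refine ⟨φ, { toFun := fun g => φ (g • v₀) * c g v₀
               map_one' := by rw [one_smul, h0, hc1, one_mul]
               map_mul' := fun g h => ?_ }, h0, hφ, fun g => rfl, key⟩
  rw [hc, ← mul_assoc, mul_smul, key g (h • v₀)]
  group

end Rec

end Pool.Agent.FJ
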