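import Pool.Agent.Lib.MP_98022b_h66.Core

/-!
# Cocompact invariant subtrees for finitely generated groups
-/

set_option autoImplicit false

namespace Pool.Agent.FJ

open SimpleGraph

section

variable {V G : Type} [Group G] [MulAction G V]

/-- The subgraph of translates of the pairs in `E₀`. -/
def subG (G : Type) [Group G] [MulAction G V] (T : SimpleGraph V) (E₀ : Set (V × V)) :
    SimpleGraph V where
  Adj u v := T.Adj u v ∧ ∃ g : G, ∃ e ∈ E₀, g • e = (u, v) ∨ g • e = (v, u)
  symm := ⟨fun u v => by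
    rintro ⟨h, g, e, he, h1⟩
    exact ⟨h.symm, g, e, he, h1.symm⟩⟩
  loopless := ⟨fun u h => T.loopless.irrefl u h.1⟩

theorem subG_le (T : SimpleGraph V) (E₀ : Set (V × V)) : subG G T E₀ ≤ T := fun _ _ h => h.1

theorem subG_smul (T : SimpleGraph V) (hadj : ∀ (g : G) u v, T.Adj u v → T.Adj (g • u) (g • v))
    (E₀ : Set (V × V)) (g : G) {u v : V} (h : (subG G T E₀).Adj u v) :
    (subG G T E₀).Adj (g • u) (g • v) := by
  obtain ⟨h, g', e, he, h1⟩ := h
  refine ⟨hadj g u v h, g * g', e, he, ?_⟩
  rcases h1 with h1 | h1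
  · left; rw [mul_smul, h1]; rfl
  · right; rw [mul_smul, h1]; rfl

/-- The action on a graph as a homomorphism. -/
def actHom (T : SimpleGraph V) (hadj : ∀ (g : G) u v, T.Adj u v → T.Adj (g • u) (g • v)) (g : G) :
    T →g T where
  toFun v := g • v
  map_rel' h := hadj g _ _ h

/-- Pairs of consecutive vertices of a walk. -/
def walkPairs {T : SimpleGraph V} : ∀ {u v : V}, T.Walk u v → List (V × V)
  | _, _, .nil => []
  | _, _, .cons (u := u) (v := v) _ p => (u, v) :: walkPairs p

theorem reachable_subG {T : SimpleGraph V} (E₀ : Set (V × V)) {u v : V} (p : T.Walk u v)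
    (hp : ∀ e ∈ walkPairs p, e ∈ E₀) : (subG G T E₀).Reachable u v := by
  induction p with
  | nil => exact Reachable.refl _
  | cons h p ih =>
    simp only [walkPairs, List.mem_cons, forall_eq_or_imp] at hp
    refine Reachable.trans (Adj.reachable ?_) (ih hp.2)
    exact ⟨h, 1, _, hp.1, Or.inl (one_smul _ _)⟩

theorem exists_subtree [Group.FG G] {T : SimpleGraph V} (hT : T.IsTree)
    (hadj : ∀ (g : G) u v, T.Adj u v → T.Adj (g • u) (g • v)) :
    ∃ (W : SubMulAction G V) (T' : SimpleGraph W), T'.IsTree ∧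
      (∀ u v : W, T'.Adj u v → T.Adj u v) ∧
      (∀ (g : G) (u v : W), T'.Adj u v → T'.Adj (g • u) (g • v)) ∧
      Finite (MulAction.orbitRel.Quotient G W) ∧
      ∃ E₀ : Finset (W × W), ∀ e : W × W, T'.Adj e.1 e.2 → rp G e ∈ E₀ := by
  classical
  obtain ⟨v₀⟩ := hT.connected.nonempty
  obtain ⟨S, hS⟩ := (Group.fg_def.1 (inferInstance : Group.FG G) : (⊤ : Subgroup G).FG)
  choose p _ using fun s : G => (hT.existsUnique_path v₀ (s • v₀)).exists
  let E₀ : Finset (V × V) := S.biUnion fun s => (walkPairs (p s)).toFinset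
  let T₁ : SimpleGraph V := subG G T (E₀ : Set (V × V))
  have hT₁adj : ∀ (g : G) u v, T₁.Adj u v → T₁.Adj (g • u) (g • v) := fun g u v h =>
    subG_smul T hadj _ g h
  have hreach_smul : ∀ (g : G) {u v : V}, T₁.Reachable u v → T₁.Reachable (g • u) (g • v) :=
    fun g u v h => h.map (actHom T₁ hT₁adj g)
  have hS1 : ∀ s ∈ S, T₁.Reachable v₀ (s • v₀) := by
    intro s hs
    refine reachable_subG _ (p s) fun e he => ?_
    exact Finset.mem_coe.2 (Finset.mem_biUnion.2 ⟨s, hs, List.mem_toFinset.2 he⟩)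
  have hreach : ∀ g : G, T₁.Reachable v₀ (g • v₀) := by
    intro g
    have hg : g ∈ Subgroup.closure (S : Set G) := by rw [hS]; trivial
    induction hg using Subgroup.closure_induction with
    | mem x hx => exact hS1 x hx
    | one => rw [one_smul]
    | mul x y _ _ hx hy =>
      rw [mul_smul]
      exact hx.trans (hreach_smul x hy)
    | inv x _ hx =>
      have := hreach_smul x⁻¹ hx
      rw [inv_smul_smul] at this
      exact this.symm
  have hac : T₁.IsAcyclic := hT.isAcyclic.anti (subG_le T _)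
  let C : T₁.ConnectedComponent := T₁.connectedComponentMk v₀
  have hCmem : ∀ v : V, v ∈ C.supp ↔ T₁.Reachable v₀ v := by
    intro v
    rw [ConnectedComponent.mem_supp_iff, ConnectedComponent.eq]
    exact ⟨Reachable.symm, Reachable.symm⟩
  let W : SubMulAction G V :=
    { carrier := C.supp
      smul_mem' := by
        intro g v hv
        rw [hCmem] at hv ⊢
        exact (hreach g).trans (hreach_smul g hv) }
  have hWmem : ∀ v : V, v ∈ W ↔ T₁.Reachable v₀ v := hCmem
  let T' : SimpleGraph W := T₁.comap (fun w : W => (w : V))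
  have hTree : T'.IsTree := by
    have h1 := hac.isTree_connectedComponent C
    let e : T' ≃g C.toSimpleGraph :=
      { toFun := fun w => ⟨w.1, w.2⟩
        invFun := fun w => ⟨w.1, w.2⟩
        left_inv := fun w => rfl
        right_inv := fun w => rfl
        map_rel_iff' := Iff.rfl }
    exact e.isTree_iff.2 h1
  have hw₀ : v₀ ∈ W := (hWmem v₀).2 (Reachable.refl _)
  let w₀ : W := ⟨v₀, hw₀⟩
  -- every edge of `T'` is a translate of a pair in the finite set `F`
  let F : Finset (V × V) := E₀ ∪ E₀.image Prod.swap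
  have hF : ∀ e : W × W, T'.Adj e.1 e.2 → ∃ g : G, ∃ f ∈ F, g • f = (e.1.1, e.2.1) := by
    rintro ⟨a, b⟩ ⟨_, g, f, hf, h1 | h1⟩
    · exact ⟨g, f, Finset.mem_union_left _ hf, h1⟩
    · refine ⟨g, f.swap, Finset.mem_union_right _ (Finset.mem_image_of_mem _ hf), ?_⟩
      have h2 : g • f.1 = (b : V) := congrArg Prod.fst h1
      have h3 : g • f.2 = (a : V) := congrArg Prod.snd h1
      exact Prod.ext h3 h2
  have hFfin : {f : W × W | (f.1.1, f.2.1) ∈ F}.Finite := by
    refine Set.Finite.preimage (f := fun f : W × W => ((f.1 : V), (f.2 : V))) ?_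
      (Finset.finite_toSet F)
    intro a _ b _ hab
    exact Prod.ext (Subtype.ext (congrArg Prod.fst hab)) (Subtype.ext (congrArg Prod.snd hab))
  have hF' : ∀ e : W × W, T'.Adj e.1 e.2 →
      ∃ g : G, ∃ f : W × W, (f.1.1, f.2.1) ∈ F ∧ g • f = e := by
    intro e he
    obtain ⟨g, f, hf, h1⟩ := hF e he
    refine ⟨g, g⁻¹ • e, ?_, smul_inv_smul _ _⟩
    have h2 : g • f.1 = (e.1 : V) := congrArg Prod.fst h1
    have h3 : g • f.2 = (e.2 : V) := congrArg Prod.snd h1
    have h4 : (((g⁻¹ • e).1 : V), ((g⁻¹ • e).2 : V)) = f := by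
      refine Prod.ext ?_ ?_
      · show g⁻¹ • (e.1 : V) = f.1
        rw [← h2, inv_smul_smul]
      · show g⁻¹ • (e.2 : V) = f.2
        rw [← h3, inv_smul_smul]
    rw [h4]
    exact hf
  refine ⟨W, T', hTree, fun u v h => h.1, fun g u v h => hT₁adj g u v h, ?_, ?_⟩
  · -- finitely many orbits of vertices
    have hsurj : ∀ o : MulAction.orbitRel.Quotient G W,
        o ∈ insert (cl G w₀) ((fun f : W × W => cl G f.1) '' {f : W × W | (f.1.1, f.2.1) ∈ F}) := by
      intro o
      induction o using Quotient.inductionOn with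
      | _ w =>
        by_cases hw : w = w₀
        · left; rw [hw]; rfl
        · right
          obtain ⟨q⟩ := hTree.connected.preconnected w w₀
          cases q with
          | nil => exact absurd rfl hw
          | cons h q =>
            obtain ⟨g, f, hf, h1⟩ := hF' (w, _) h
            refine ⟨f, hf, ?_⟩
            have h2 : g • f.1 = w := congrArg Prod.fst h1
            show cl G f.1 = cl G w
            rw [← h2, cl_smul]
    have hfin : (insert (cl G w₀)
        ((fun f : W × W => cl G f.1) '' {f : W × W | (f.1.1, f.2.1) ∈ F})).Finite :=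
      (hFfin.image _).insert _
    exact Set.finite_univ_iff.1 (hfin.subset fun o _ => hsurj o)
  · refine ⟨(hFfin.image (rp G)).toFinset, fun e he => ?_⟩
    rw [Set.Finite.mem_toFinset]
    obtain ⟨g, f, hf, h1⟩ := hF' e he
    exact ⟨f, hf, by rw [← h1, rp_smul]⟩

end

end Pool.Agent.FJ
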