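import Pool.Agent.Lib.MP_98022b_h66.Subtree

/-!
# Groups acting on trees with a homomorphism that is injective on edge stabilizers
-/

set_option autoImplicit false

namespace Pool.Agent.FJ

open SimpleGraph

variable {P : ∀ (G : Type) [Group G], Prop}

section

/-- Stabilizers in a subgroup. -/
theorem IsFJClass.stab_subgroup (hP : IsFJClass P) {G V : Type} [Group G] [MulAction G V]
    (hV : ∀ v : V, P (MulAction.stabilizer G v)) (H : Subgroup G) (v : V) :
    P (MulAction.stabilizer H v) := by
  refine hP.of_injective (H := MulAction.stabilizer G v)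
    { toFun := fun h => ⟨(h.1 : G), h.2⟩
      map_one' := rfl
      map_mul' := fun a b => rfl } ?_ (hV v)
  intro a b hab
  apply Subtype.ext
  apply Subtype.ext
  exact congrArg (fun x : MulAction.stabilizer G v => (x : G)) hab

/-- Stabilizers of points of an invariant subset. -/
theorem IsFJClass.stab_sub (hP : IsFJClass P) {G V : Type} [Group G] [MulAction G V]
    (hV : ∀ v : V, P (MulAction.stabilizer G v)) (W : SubMulAction G V) (w : W) :
    P (MulAction.stabilizer G w) := by
  refine hP.of_le ?_ (hV (w : V))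
  intro g hg
  exact congrArg (fun x : W => (x : V)) (show g • w = w from hg)

/-- Finitely generated groups, normalized edge groups. -/
theorem IsFJClass.tree_fg_normalized (hP : IsFJClass P) {G V : Type} [Group G] [MulAction G V]
    [Group.FG G] {T : SimpleGraph V} (hT : T.IsTree)
    (hadj : ∀ (g : G) u v, T.Adj u v → T.Adj (g • u) (g • v))
    (col : V → Bool) (hTc : ∀ u v, T.Adj u v → col u ≠ col v)
    (hcol : ∀ (g : G) v, col (g • v) = col v)
    (hV : ∀ v : V, P (MulAction.stabilizer G v))
    (lam : G →* Multiplicative ℤ)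
    (hinj : ∀ u v, T.Adj u v → ∀ s : G, s • u = u → s • v = v → lam s = 1 → s = 1)
    (hgen : ∀ u v, T.Adj u v → (∀ s : G, s • u = u → s • v = v → s = 1) ∨
      ∃ c : G, c • u = u ∧ c • v = v ∧ lam c = tt) : P G := by
  obtain ⟨W, T', hT', hle, hadj', hfin, hE⟩ := exists_subtree (G := G) hT hadj
  refine hP.tree_core (V := W) (T := T') hT' hadj' (fun w => col w)
    (fun u v h => hTc _ _ (hle u v h)) (fun g w => hcol g w) hfin hE (hP.stab_sub hV W) lam
    (fun u v h s h1 h2 h3 => hinj _ _ (hle u v h) s (congrArg Subtype.val h1)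
      (congrArg Subtype.val h2) h3) ?_
  intro u v h
  rcases hgen _ _ (hle u v h) with h1 | ⟨c, h1, h2, h3⟩
  · left
    intro s h4 h5
    exact h1 s (congrArg Subtype.val h4) (congrArg Subtype.val h5)
  · right
    exact ⟨c, Subtype.ext h1, Subtype.ext h2, h3⟩

/-- Finitely generated groups. -/
theorem IsFJClass.tree_fg (hP : IsFJClass P) {G V : Type} [Group G] [MulAction G V]
    [Group.FG G] {T : SimpleGraph V} (hT : T.IsTree)
    (hadj : ∀ (g : G) u v, T.Adj u v → T.Adj (g • u) (g • v))
    (col : V → Bool) (hTc : ∀ u v, T.Adj u v → col u ≠ col v)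
    (hcol : ∀ (g : G) v, col (g • v) = col v)
    (hV : ∀ v : V, P (MulAction.stabilizer G v))
    (lam : G →* Multiplicative ℤ)
    (hinj : ∀ u v, T.Adj u v → ∀ s : G, s • u = u → s • v = v → lam s = 1 → s = 1) : P G := by
  classical
  obtain ⟨W, T', hT', hle, hadj', -, E₀, hE₀⟩ := exists_subtree (G := G) hT hadj
  -- a positive exponent for every pair
  have hex : ∀ e : W × W, ∃ n : ℕ, 0 < n ∧ ((∀ s : G, s • e = e → lam s = 1) ∨
      ∃ c : G, c • e = e ∧ lam c = Multiplicative.ofAdd (n : ℤ)) := by
    intro e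
    by_cases h : ∀ s : G, s • e = e → lam s = 1
    · exact ⟨1, one_pos, Or.inl h⟩
    · push Not at h
      obtain ⟨s, hs, hs1⟩ := h
      have hs0 : Multiplicative.toAdd (lam s) ≠ 0 := fun h0 => hs1 (by
        apply Multiplicative.toAdd.injective
        exact h0)
      refine ⟨(Multiplicative.toAdd (lam s)).natAbs, Int.natAbs_pos.2 hs0, Or.inr ?_⟩
      rcases le_or_gt 0 (Multiplicative.toAdd (lam s)) with h1 | h1
      · refine ⟨s, hs, ?_⟩
        rw [Int.natAbs_of_nonneg h1, ofAdd_toAdd]
      · refine ⟨s⁻¹, inv_smul_eq_iff.2 hs.symm, ?_⟩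
        rw [Int.ofNat_natAbs_of_nonpos h1.le, map_inv, ofAdd_neg, ofAdd_toAdd]
  choose n hn hnc using hex
  let N : ℕ := ∏ e ∈ E₀, n e
  have hN : 0 < N := Finset.prod_pos fun e _ => hn e
  -- the subgroup of elements with value divisible by `N`
  let red : Multiplicative ℤ →* Multiplicative (ZMod N) :=
    AddMonoidHom.toMultiplicative (Int.castAddHom (ZMod N))
  let K : Subgroup G := (red.comp lam).ker
  have : NeZero N := ⟨hN.ne'⟩
  have hKfin : K.FiniteIndex := by
    have : Finite (Multiplicative (ZMod N)) := inferInstanceAs (Finite (ZMod N))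
    infer_instance
  have hKfg : Group.FG K := K.fg_of_index_ne_zero
  refine hP.of_finiteIndex K hKfin ?_
  have hKdvd : ∀ g : G, g ∈ K ↔ (N : ℤ) ∣ Multiplicative.toAdd (lam g) := by
    intro g
    rw [← ZMod.intCast_zmod_eq_zero_iff_dvd]
    exact Iff.rfl
  -- the normalized homomorphism
  let lam' : K →* Multiplicative ℤ :=
    { toFun := fun g => Multiplicative.ofAdd (Multiplicative.toAdd (lam (g : G)) / (N : ℤ))
      map_one' := by simp
      map_mul' := fun g h => by
        rw [Subgroup.coe_mul, map_mul, toAdd_mul, ← ofAdd_add,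
          Int.add_ediv_of_dvd_left ((hKdvd g).1 g.2)] }
  have hlam' : ∀ g : K, Multiplicative.toAdd (lam (g : G)) =
      Multiplicative.toAdd (lam' g) * N := fun g => by
    show _ = Multiplicative.toAdd (lam (g : G)) / (N : ℤ) * N
    rw [Int.ediv_mul_cancel ((hKdvd g).1 g.2)]
  refine hP.tree_fg_normalized (V := W) (T := T') hT' (fun g u v h => hadj' (g : G) u v h)
    (fun w => col w) (fun u v h => hTc _ _ (hle u v h)) (fun g w => hcol (g : G) w)
    (hP.stab_subgroup (hP.stab_sub hV W) K) lam' ?_ ?_
  · intro u v h s h1 h2 h3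
    have h4 : lam (s : G) = 1 := by
      apply Multiplicative.toAdd.injective
      rw [hlam' s, h3]
      simp
    exact Subtype.ext (hinj _ _ (hle u v h) (s : G) (congrArg Subtype.val h1)
      (congrArg Subtype.val h2) h4)
  · intro u v h
    have hE := hE₀ (u, v) h
    set r : W × W := rp G (u, v) with hr
    have ht : tau G (u, v) • r = (u, v) := tau_smul _
    have hNr : (n r : ℤ) ∣ N := by
      exact_mod_cast Finset.dvd_prod_of_mem n hE
    rcases hnc r with h1 | ⟨c, h1, h2⟩
    · left
      intro s hs1 hs2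
      have hse : (s : G) • (u, v) = (u, v) := Prod.ext hs1 hs2
      have h3 : lam ((tau G (u, v))⁻¹ * s * tau G (u, v)) = 1 := by
        refine h1 _ ?_
        rw [mul_smul, mul_smul, ht, hse, inv_smul_eq_iff, ht]
      have h4 : lam (s : G) = 1 := by
        rw [map_mul, map_mul, map_inv, mul_comm, ← mul_assoc, mul_inv_cancel, one_mul] at h3
        exact h3
      exact Subtype.ext (hinj _ _ (hle u v h) (s : G) (congrArg Subtype.val hs1)
        (congrArg Subtype.val hs2) h4)
    · right
      obtain ⟨k, hk⟩ := hNr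
      let c' : G := tau G (u, v) * c ^ k * (tau G (u, v))⁻¹
      have hc'lam : lam c' = Multiplicative.ofAdd (N : ℤ) := by
        rw [map_mul, map_mul, map_inv, mul_comm, ← mul_assoc, inv_mul_cancel, one_mul, map_zpow,
          h2, ← ofAdd_zsmul, hk, smul_eq_mul, mul_comm]
      have hc'K : c' ∈ K := by
        rw [hKdvd, hc'lam]
        exact dvd_rfl
      have hck : c ^ k • r = r :=
        (zpow_mem (show c ∈ MulAction.stabilizer G r from h1) k : c ^ k ∈ MulAction.stabilizer G r)
      have hc'e : c' • (u, v) = (u, v) := by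
        show (tau G (u, v) * c ^ k * (tau G (u, v))⁻¹) • (u, v) = (u, v)
        rw [mul_smul, mul_smul, tau_inv_smul, ← hr, hck, ht]
      refine ⟨⟨c', hc'K⟩, congrArg Prod.fst hc'e, congrArg Prod.snd hc'e, ?_⟩
      apply Multiplicative.toAdd.injective
      show Multiplicative.toAdd (lam c') / (N : ℤ) = 1
      rw [hc'lam, toAdd_ofAdd]
      exact Int.ediv_self (by exact_mod_cast hN.ne')

/-- Homomorphisms to the infinite cyclic group, bipartite actions. -/
theorem IsFJClass.tree_int_col (hP : IsFJClass P) {G V : Type} [Group G] [MulAction G V]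
    {T : SimpleGraph V} (hT : T.IsTree)
    (hadj : ∀ (g : G) u v, T.Adj u v → T.Adj (g • u) (g • v))
    (col : V → Bool) (hTc : ∀ u v, T.Adj u v → col u ≠ col v)
    (hcol : ∀ (g : G) v, col (g • v) = col v)
    (hV : ∀ v : V, P (MulAction.stabilizer G v))
    (lam : G →* Multiplicative ℤ)
    (hinj : ∀ u v, T.Adj u v → ∀ s : G, s • u = u → s • v = v → lam s = 1 → s = 1) : P G := by
  refine hP.locally fun S => ⟨Subgroup.closure (S : Set G), fun x hx =>
    Subgroup.subset_closure hx, ?_⟩
  have : Group.FG (Subgroup.closure (S : Set G)) :=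
    (Group.fg_iff_subgroup_fg _).2 ⟨S, rfl⟩
  refine hP.tree_fg (G := Subgroup.closure (S : Set G)) hT (fun g u v h => hadj (g : G) u v h) col
    hTc (fun g v => hcol (g : G) v) (hP.stab_subgroup hV _)
    (lam.comp (Subgroup.closure (S : Set G)).subtype) ?_
  intro u v h s h1 h2 h3
  exact Subtype.ext (hinj u v h (s : G) h1 h2 h3)

/-- Homomorphisms to the infinite cyclic group. -/
theorem IsFJClass.tree_int (hP : IsFJClass P) {G V : Type} [Group G] [MulAction G V]
    {T : SimpleGraph V} (hT : T.IsTree)
    (hadj : ∀ (g : G) u v, T.Adj u v → T.Adj (g • u) (g • v))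
    (hV : ∀ v : V, P (MulAction.stabilizer G v))
    (lam : G →* Multiplicative ℤ)
    (hinj : ∀ u v, T.Adj u v → ∀ s : G, s • u = u → s • v = v → lam s = 1 → s = 1) : P G := by
  obtain ⟨v₀⟩ := hT.connected.nonempty
  let σ : Multiplicative (ZMod 2) := Multiplicative.ofAdd 1
  have hσ : σ * σ = 1 := by decide
  have hσ1 : σ ≠ 1 := by decide
  obtain ⟨φ, Φ, h0, hφ, -, hΦ⟩ := exists_rec (G := G) (M := Multiplicative (ZMod 2)) hT hadj
    (fun _ _ => σ) (fun _ _ _ => (eq_inv_of_mul_eq_one_left hσ)) (fun _ _ => 1)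
    (fun _ _ _ => (one_mul 1).symm) (fun _ _ _ _ => by simp) v₀
  have : Finite (Multiplicative (ZMod 2)) := inferInstanceAs (Finite (ZMod 2))
  refine hP.of_finite_range Φ ?_
  refine hP.tree_int_col (G := Φ.ker) hT (fun g u v h => hadj (g : G) u v h)
    (fun v => decide (φ v = 1)) ?_ ?_ (hP.stab_subgroup hV _) (lam.comp Φ.ker.subtype) ?_
  · intro u v h
    have h1 := hφ u v h
    have h2 : ∀ x : Multiplicative (ZMod 2), decide (x = 1) ≠ decide (x * σ = 1) := by decide
    rw [h1]
    exact h2 _
  · intro g v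
    have h1 := hΦ (g : G) v
    rw [mul_one, (show Φ (g : G) = 1 from g.2), one_mul] at h1
    show decide (φ ((g : G) • v) = 1) = decide (φ v = 1)
    rw [h1]
  · intro u v h s h1 h2 h3
    exact Subtype.ext (hinj u v h (s : G) h1 h2 h3)

/-- **Groups acting on trees.** A group acting on a tree with all vertex stabilizers in the class
is in the class if it has a homomorphism to a group of the class that is injective on the edge
stabilizers. -/
theorem IsFJClass.tree_mem (hP : IsFJClass P) {G V Q : Type} [Group G] [MulAction G V] [Group Q]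
    {T : SimpleGraph V} (hT : T.IsTree)
    (hadj : ∀ (g : G) u v, T.Adj u v → T.Adj (g • u) (g • v))
    (hV : ∀ v : V, P (MulAction.stabilizer G v))
    (f : G →* Q) (hQ : P Q)
    (hf : ∀ u v, T.Adj u v → ∀ g : G, g • u = u → g • v = v → f g = 1 → g = 1) : P G := by
  refine hP.extension f hQ fun q => ?_
  set K : Subgroup G := (Subgroup.zpowers q).comap f with hK
  let fK : K →* Subgroup.zpowers q :=
    (f.comp K.subtype).codRestrict (Subgroup.zpowers q) fun x => x.2
  have hfK : ∀ k : K, ((fK k : Subgroup.zpowers q) : Q) = f (k : G) := fun k => rfl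
  by_cases hq : IsOfFinOrder q
  · have : Finite (Subgroup.zpowers q) := finite_zpowers.2 hq
    refine hP.of_finite_range fK ?_
    refine hP.tree_int (G := fK.ker) hT (fun g u v h => hadj ((g : K) : G) u v h)
      (hP.stab_subgroup (hP.stab_subgroup hV K) _) 1 ?_
    intro u v h s h1 h2 _
    have h3 : f ((s : K) : G) = 1 := by
      rw [← hfK, show fK (s : K) = 1 from s.2]
      rfl
    exact Subtype.ext (Subtype.ext (hf u v h ((s : K) : G) h1 h2 h3))
  · have hinj : Function.Injective (zpowersHom Q q) := by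
      intro a b hab
      apply Multiplicative.toAdd.injective
      exact (injective_zpow_iff_not_isOfFinOrder.2 hq) hab
    let e : Multiplicative ℤ ≃* Subgroup.zpowers q :=
      MulEquiv.ofBijective ((zpowersHom Q q).codRestrict (Subgroup.zpowers q)
        (fun a => ⟨Multiplicative.toAdd a, rfl⟩)) ⟨fun a b hab => hinj (congrArg Subtype.val hab),
          fun ⟨y, k, hk⟩ => ⟨Multiplicative.ofAdd k, Subtype.ext hk⟩⟩
    refine hP.tree_int (G := K) hT (fun g u v h => hadj (g : G) u v h)
      (hP.stab_subgroup hV K) (e.symm.toMonoidHom.comp fK) ?_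
    intro u v h s h1 h2 h3
    have h4 : fK s = 1 := e.symm.injective (h3.trans (map_one e.symm).symm)
    have h5 : f (s : G) = 1 := by rw [← hfK, h4]; rfl
    exact Subtype.ext (hf u v h (s : G) h1 h2 h5)

end

end Pool.Agent.FJ
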